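import Pool.Agent.TH563.UV.Dblb
import Pool.Agent.TH639.J28
import Pool.Agent.W658.AX.NG
import Pool.Agent.W366.AX.Djt

/-!
# Doubles of trees with crossing circles (job 139 of helper563)
-/

set_option autoImplicit false

namespace Pool.Agent.TH219.J139

open Finset Filter Topology Metric
open Pool.Agent.W711.HT hiding XX
open Pool.Agent.TH563.UV
open scoped Real ComplexConjugate

/-- the factor of a circle -/
noncomputable def Ub (b : Bool) (N : ℕ) (ψ : ℂ) : ℂ := if b then UN N ψ else 1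

theorem Ub_diff (b : Bool) (N : ℕ) : Differentiable ℂ (Ub b N) := by
  cases b with
  | false => exact differentiable_const _
  | true => exact fun ψ => (Pool.Agent.TH639.J28.hasDeriv_UN N ψ).differentiableAt

theorem Ub_even (b : Bool) (N : ℕ) (ψ : ℂ) : Ub b N (-ψ) = Ub b N ψ := by
  cases b with
  | false => rfl
  | true => exact Pool.Agent.TH639.J28.UN_even N ψ

theorem Ub_conj (b : Bool) (N : ℕ) (ψ : ℂ) : conj (Ub b N (conj ψ)) = Ub b N ψ := by
  cases b with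
  | false => exact map_one _
  | true =>
    show conj (UN N (conj ψ)) = UN N ψ
    unfold UN
    rw [map_sum]
    refine Finset.sum_congr rfl fun j _ => ?_
    rw [← Complex.cos_conj]
    congr 1
    simp only [map_mul, map_add, map_sub, Complex.conj_conj, Complex.conj_ofReal, map_natCast,
      map_ofNat, map_one]

theorem stpb_eq (b : Bool) (a : ℤ) (X : ℕ → ℂ → ℂ) (N : ℕ) (ψ' : ℂ) :
    stpb b a X N ψ' = stp a (fun N ψ => Ub b N ψ * X N ψ) N ψ' := by
  unfold stpb stp Eb Ub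
  congr 1
  funext ψ
  ring

theorem XX_diff (t : Tb) : (∀ N, Differentiable ℂ (XX t N)) ∧ ∀ N ψ, XX t N (-ψ) = XX t N ψ := by
  induction t with
  | vx b a => exact ⟨fun N => differentiable_const _, fun N ψ => rfl⟩
  | br t c iht ihc =>
    obtain ⟨h1, h2⟩ := Pool.Agent.W398.HT.t_STPE c.wt (fun N ψ => Ub c.bl N ψ * XX c N ψ)
      (fun N => (Ub_diff c.bl N).mul (ihc.1 N))
    have h3 : ∀ N, stpb c.bl c.wt (XX c) N =
        stp c.wt (fun N ψ => Ub c.bl N ψ * XX c N ψ) N :=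
      fun N => funext fun ψ => stpb_eq _ _ _ N ψ
    refine ⟨fun N => ?_, fun N ψ => ?_⟩
    · have h4 : Differentiable ℂ (fun ψ => XX t N ψ * stpb c.bl c.wt (XX c) N ψ) := by
        rw [h3 N]
        exact (iht.1 N).mul (h1 N)
      exact h4
    · change XX t N (-ψ) * stpb c.bl c.wt (XX c) N (-ψ) = XX t N ψ * stpb c.bl c.wt (XX c) N ψ
      rw [iht.2, h3 N, h2]

theorem wt_ngb (t : Tb) : (ngb t).wt = -t.wt := by
  induction t with
  | vx b a => rfl
  | br t c iht _ => exact iht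

theorem bl_ngb (t : Tb) : (ngb t).bl = t.bl := by
  induction t with
  | vx b a => rfl
  | br t c iht _ => exact iht

theorem ne_ngb (t : Tb) : (ngb t).ne = t.ne := by
  induction t with
  | vx b a => rfl
  | br t c iht ihc => simp only [ngb, Tb.ne, iht, ihc]

theorem nb_ngb (t : Tb) : (ngb t).nb = t.nb := by
  induction t with
  | vx b a => rfl
  | br t c iht ihc => simp only [ngb, Tb.nb, iht, ihc]

theorem ws_ngb (t : Tb) : (ngb t).ws = -t.ws := by
  induction t with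
  | vx b a => rfl
  | br t c iht ihc => simp only [ngb, Tb.ws, iht, ihc]; ring

theorem ngb_XX (t : Tb) (N : ℕ) : ∀ ψ : ℂ,
    XX (ngb t) N ψ = (-1) ^ t.ne * conj (XX t N (conj ψ)) := by
  induction t with
  | vx b a =>
    intro ψ
    show (1 : ℂ) = (-1) ^ (Tb.vx b a).ne * conj (1 : ℂ)
    simp [Tb.ne]
  | br t c iht ihc =>
    intro ψ
    show XX (ngb t) N ψ * stpb (ngb c).bl (ngb c).wt (XX (ngb c)) N ψ =
      (-1) ^ (Tb.br t c).ne * conj (XX t N (conj ψ) * stpb c.bl c.wt (XX c) N (conj ψ))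
    rw [iht, wt_ngb, bl_ngb, stpb_eq, stpb_eq,
      Pool.Agent.W658.AX.stp_conj c.wt (fun N ψ => Ub c.bl N ψ * XX c N ψ)
        (fun N ψ => Ub c.bl N ψ * XX (ngb c) N ψ) N ((-1) ^ c.ne)
        (fun ψ => by simp only [Ub_even, (XX_diff c).2])
        (fun ψ => by simp only [ihc, map_mul, Ub_conj]; ring), map_mul]
    have : (Tb.br t c).ne = t.ne + c.ne + 1 := rfl
    rw [this, pow_succ, pow_add]
    ring

theorem djt (t : Tb) (N : ℕ) (hN : 2 ≤ N) :
    JT (.br t (ngb t)) N = (-1) ^ (t.ne + 1) * ((∑ d ∈ range N,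
      ‖upp (1 / N) fun ψ => Ea t.wt N ψ * (Ub t.bl N ψ * XX t N ψ) * Rp N d ψ * kr N ψ‖ ^ 2 /
        Sd N d ^ 4 : ℝ) : ℂ) := by
  have hN0 : 0 < N := by omega
  set A : ℕ → ℂ := fun d => upp (1 / N) fun ψ =>
    Ea t.wt N ψ * (Ub t.bl N ψ * XX t N ψ) * Rp N d ψ * kr N ψ with hA
  set B : ℕ → ℂ := fun d => upp (1 / N) fun ψ =>
    Ea (ngb t).wt N ψ * (Ub (ngb t).bl N ψ * XX (ngb t) N ψ) * Rp N d ψ * kr N ψ with hB
  have hUD : ∀ (t : Tb) (N : ℕ), Differentiable ℂ (fun ψ => Ub t.bl N ψ * XX t N ψ) :=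
    fun t N => (Ub_diff t.bl N).mul ((XX_diff t).1 N)
  -- the conjugate
  have hconj : ∀ d, B d = (-1) ^ (t.ne + 1) * (starRingEnd ℂ) (A d) := by
    intro d
    have h1 : (starRingEnd ℂ) (A d) = upp (1 / N) (fun ψ =>
        (-((-1) ^ t.ne)) * (Ea (ngb t).wt N ψ * (Ub (ngb t).bl N ψ * XX (ngb t) N ψ) *
          Rp N d ψ * kr N ψ)) := by
      rw [hA]
      simp only
      rw [Pool.Agent.W366.AX.conj_upp]
      congr 1
      funext ψ
      rw [map_mul, map_mul, map_mul, map_mul, Pool.Agent.W366.AX.conj_Ea,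
        Pool.Agent.W366.AX.conj_Rp, Pool.Agent.W366.AX.conj_kr, wt_ngb, bl_ngb, (XX_diff t).2,
        Ub_even, Ub_conj, ngb_XX t N ψ]
      have h2 : ((-1 : ℂ) ^ t.ne) * (-1) ^ t.ne = 1 := by
        rw [← mul_pow]; norm_num
      linear_combination (-(Ea (-t.wt) N ψ * (Ub t.bl N ψ *
        (starRingEnd ℂ) (XX t N ((starRingEnd ℂ) ψ))) * Rp N d ψ * kr N ψ)) * (1 - h2)
    have h3 : upp (1 / N) (fun ψ =>
        (-((-1) ^ t.ne)) * (Ea (ngb t).wt N ψ * (Ub (ngb t).bl N ψ * XX (ngb t) N ψ) *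
          Rp N d ψ * kr N ψ)) = (-((-1) ^ t.ne)) * B d := by
      rw [hB]
      unfold upp
      simp only [intervalIntegral.integral_const_mul]
      ring
    rw [h1, h3, pow_succ]
    have h2 : ((-1 : ℂ) ^ t.ne) * (-1) ^ t.ne = 1 := by
      rw [← mul_pow]; norm_num
    linear_combination (-(B d)) * h2
  have hstp : ∀ ψ, stpb (ngb t).bl (ngb t).wt (XX (ngb t)) N ψ =
      ∑ d ∈ Finset.range N, (Rp N d ψ / (Sd N d : ℂ) ^ 4) * B d := by
    intro ψ
    rw [stpb_eq]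
    exact Pool.Agent.W398.HT.stp_eq (ngb t).wt (fun N ψ => Ub (ngb t).bl N ψ * XX (ngb t) N ψ)
      (hUD (ngb t)) N ψ
  have hJ : JT (.br t (ngb t)) N = upp (1 / N) (fun ψ => ∑ d ∈ Finset.range N,
      (B d / (Sd N d : ℂ) ^ 4) *
        (Ea t.wt N ψ * (Ub t.bl N ψ * XX t N ψ) * Rp N d ψ * kr N ψ)) := by
    unfold JT
    congr 1
    funext ψ
    change Ea t.wt N ψ * Ub t.bl N ψ *
      (XX t N ψ * stpb (ngb t).bl (ngb t).wt (XX (ngb t)) N ψ) * kr N ψ = _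
    rw [hstp, Finset.mul_sum, Finset.mul_sum, Finset.sum_mul]
    refine Finset.sum_congr rfl fun d _ => ?_
    ring
  rw [hJ, Pool.Agent.W366.AX.upp_expand t.wt (fun ψ => Ub t.bl N ψ * XX t N ψ) (hUD t N) N hN0]
  push_cast
  rw [Finset.mul_sum]
  refine Finset.sum_congr rfl fun d _ => ?_
  change B d / (Sd N d : ℂ) ^ 4 * A d = (-1) ^ (t.ne + 1) * ((‖A d‖ : ℂ) ^ 2 / (Sd N d : ℂ) ^ 4)
  rw [hconj d]
  have h4 : (starRingEnd ℂ) (A d) * A d = (‖A d‖ : ℂ) ^ 2 := by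
    rw [mul_comm, Complex.mul_conj, Complex.normSq_eq_norm_sq]
    push_cast
    rfl
  rw [← h4]
  ring

/-- the Kashaev invariant of a double -/
theorem dblb : Pool.Agent.TH563.UV.S_DBLB := by
  intro t N hN
  set S : ℝ := ∑ d ∈ range N,
    ‖upp (1 / N) fun ψ => Ea t.wt N ψ * (Ub t.bl N ψ * XX t N ψ) * Rp N d ψ * kr N ψ‖ ^ 2 /
      Sd N d ^ 4 with hS
  have hS0 : 0 ≤ S := by
    apply Finset.sum_nonneg
    intro d _
    apply div_nonneg (by positivity)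
    exact Even.pow_nonneg (by decide) _
  refine ⟨((N : ℝ) ^ 2 / (2 * π)) ^ (2 * t.ne + 2) * S, by positivity, ?_⟩
  rw [(Pool.Agent.TH639.J28.rtb _ N hN).2, djt t N hN, ← hS]
  have h1 : (Tb.br t (ngb t)).ne = 2 * t.ne + 1 := by
    simp only [Tb.ne, ne_ngb]; ring
  have h2 : (Tb.br t (ngb t)).ws = 0 := by
    simp only [Tb.ws, ws_ngb]; ring
  have h6 : (Tb.br t (ngb t)).nb = 2 * t.nb := by
    simp only [Tb.nb, nb_ngb]; ring
  rw [h1, h2, h6, zpow_zero, mul_one]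
  have h3 : ((-1 : ℂ)) ^ ((N - 1) * (2 * t.ne + 1)) = (-1) ^ (N - 1) := by
    have : (N - 1) * (2 * t.ne + 1) = 2 * ((N - 1) * t.ne) + (N - 1) := by ring
    rw [this, pow_add, pow_mul]
    simp
  have h4 : (Complex.I * N ^ 2 / (2 * π)) ^ (2 * t.ne + 1 + 1) =
      (-1) ^ (t.ne + 1) * (((N : ℂ) ^ 2 / (2 * π)) ^ (2 * t.ne + 2)) := by
    have : 2 * t.ne + 1 + 1 = 2 * (t.ne + 1) := by ring
    rw [this, mul_div_assoc, mul_pow, pow_mul Complex.I, Complex.I_sq]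
  have h5 : ((-1 : ℂ) ^ (t.ne + 1)) * ((-1 : ℂ) ^ (t.ne + 1)) = 1 := by
    rw [← mul_pow]; simp
  rw [h3, h4]
  push_cast
  linear_combination ((-1 : ℂ) ^ (N - 1) * (((N : ℂ) ^ 2 / (2 * π)) ^ (2 * t.ne + 2)) *
    kb N ^ (2 * t.nb) * (S : ℂ)) * h5

end Pool.Agent.TH219.J139
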